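import Pool.Agent.N357.NP.Assemble

/-!
# All 2-near perfect numbers `2^k p^m` with `m ≥ 2`

`n` is 2-near perfect when `2 n` is the sum of all positive divisors of `n` except exactly two.  We
find all 2-near perfect numbers of the form `2^k p^m` with `p` prime, `k ≥ 0`, `m ≥ 2`: they are `18`,
`36`, `200` and the numbers `2^k q^3` with `q = 2^(k+1) - 1` a Mersenne prime.  Hence there are only
finitely many of them if and only if there are only finitely many Mersenne primes.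

Outline.  For odd `p` put `A = 2^(k+1)` and `S = 1 + p + ... + p^(m-1)`.  The equation
`σ(n) = 2 n + X p^u + Y p^v`, with `X = 2^a`, `Y = 2^b`, is `(A - p) S = 1 + X p^u + Y p^v`.  For
`u ≤ v < m` reduction mod `p` and the bounds `2X, 2Y ≤ A` leave `A = p + 1` or `A - p` a power of `p`.
For `v = m` put `F = A - p - Y(p-1)`; then `F S = 1 + Y + X p^u`, the power `2Y` divides `F + p`, and
this bounds `A` by `(F + p)(p + 1)/2`.  For `1 ≤ u < m` one has moreover `F ≥ 1 + Y` and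
`A - 1 = p^u c` with `c = F p^(m-u) - (p-1) X`, which forces `u = m - 1`; the remaining case is
settled by comparing the powers of two in `A`, `X`, `Y`.
-/

set_option autoImplicit false

namespace Pool.Agent.Results.MP_d695ac_nt.MersenneCubes

open Finset

/-- `n` is positive and has two distinct positive divisors `d₁`, `d₂` with
`σ(n) = 2 n + d₁ + d₂`. -/
def TwoNearPerfect (n : ℕ) : Prop :=
  0 < n ∧ ∃ d₁ d₂ : ℕ, d₁ ∣ n ∧ d₂ ∣ n ∧ d₁ ≠ d₂ ∧ ∑ d ∈ n.divisors, d = 2 * n + d₁ + d₂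

theorem sum_div_pow {p : ℕ} (hp : p.Prime) (m : ℕ) :
    ∑ d ∈ (p ^ m).divisors, d = ∑ i ∈ range (m + 1), p ^ i := by
  rw [Nat.divisors_prime_pow hp, sum_map]
  rfl

theorem sum_two (k : ℕ) : ∑ i ∈ range (k + 1), 2 ^ i + 1 = 2 ^ (k + 1) := by
  induction k with
  | zero => simp
  | succ k ih => rw [sum_range_succ, pow_succ 2 (k + 1)]; omega

theorem sum_div {p : ℕ} (hp : p.Prime) (h2 : p ≠ 2) (k m : ℕ) :
    ∑ d ∈ (2 ^ k * p ^ m).divisors, d =
      (∑ i ∈ range (k + 1), 2 ^ i) * ∑ i ∈ range (m + 1), p ^ i := by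
  have hcop : Nat.Coprime (2 ^ k) (p ^ m) :=
    Nat.Coprime.pow _ _ ((Nat.coprime_primes Nat.prime_two hp).2 (Ne.symm h2))
  rw [Nat.Coprime.sum_divisors_mul hcop, sum_div_pow Nat.prime_two, sum_div_pow hp]

theorem eqn {p : ℕ} (hp : p.Prime) (h2 : p ≠ 2) {k m d₁ d₂ : ℕ}
    (h : ∑ d ∈ (2 ^ k * p ^ m).divisors, d = 2 * (2 ^ k * p ^ m) + d₁ + d₂) :
    ((2 : ℤ) ^ (k + 1) - p) * Pool.Agent.N357.NP.S p m = 1 + d₁ + d₂ := by
  rw [sum_div hp h2] at h
  have h1 : ((∑ i ∈ range (k + 1), 2 ^ i : ℕ) : ℤ) = 2 ^ (k + 1) - 1 := by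
    have := sum_two k
    have h3 : ((∑ i ∈ range (k + 1), 2 ^ i : ℕ) : ℤ) + 1 = 2 ^ (k + 1) := by exact_mod_cast this
    linarith
  have h4 : ((∑ i ∈ range (m + 1), p ^ i : ℕ) : ℤ) = Pool.Agent.N357.NP.S p (m + 1) := by
    unfold Pool.Agent.N357.NP.S
    push_cast
    rfl
  have h5 : (((∑ i ∈ range (k + 1), 2 ^ i) * ∑ i ∈ range (m + 1), p ^ i : ℕ) : ℤ) =
      ((2 * (2 ^ k * p ^ m) + d₁ + d₂ : ℕ) : ℤ) := by rw [h]
  rw [Nat.cast_mul, h1, h4, Pool.Agent.N357.NP.S_succ] at h5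
  push_cast at h5
  have h6 := Pool.Agent.N357.NP.S_geom (p : ℤ) m
  have h7 : (2 : ℤ) ^ (k + 1) = 2 * 2 ^ k := by rw [pow_succ]; ring
  rw [h7] at h5 ⊢
  have h8 : (p : ℤ) ^ m = (p - 1) * Pool.Agent.N357.NP.S p m + 1 := by linarith
  linarith

theorem dvd_form {p : ℕ} (hp : p.Prime) {k m d : ℕ} (h : d ∣ 2 ^ k * p ^ m) :
    ∃ a u : ℕ, a ≤ k ∧ u ≤ m ∧ d = 2 ^ a * p ^ u := by
  obtain ⟨x, y, hx, hy, rfl⟩ := (Nat.dvd_mul).1 h
  obtain ⟨a, ha, rfl⟩ := (Nat.dvd_prime_pow Nat.prime_two).1 hx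
  obtain ⟨u, hu, rfl⟩ := (Nat.dvd_prime_pow hp).1 hy
  exact ⟨a, u, ha, hu, rfl⟩

theorem not_two (j : ℕ) : ¬ TwoNearPerfect (2 ^ j) := by
  rintro ⟨-, d₁, d₂, -, -, -, h⟩
  rw [sum_div_pow Nat.prime_two] at h
  have := sum_two j
  rw [pow_succ] at this
  omega

theorem forward {p k m : ℕ} (hp : p.Prime) (hm : 2 ≤ m) (h : TwoNearPerfect (2 ^ k * p ^ m)) :
    (p = 3 ∧ k = 1 ∧ m = 2) ∨ (p = 3 ∧ k = 2 ∧ m = 2) ∨ (p = 5 ∧ k = 3 ∧ m = 2) ∨
      (m = 3 ∧ p + 1 = 2 ^ (k + 1)) := by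
  by_cases h2 : p = 2
  · exfalso
    rw [h2, ← pow_add] at h
    exact not_two _ h
  obtain ⟨-, d₁, d₂, hd1, hd2, hne, hs⟩ := h
  have h3 : 3 ≤ p := by
    have := hp.two_le
    omega
  have he := eqn hp h2 hs
  obtain ⟨a, u, ha, hu, rfl⟩ := dvd_form hp hd1
  obtain ⟨b, v, hb, hv, rfl⟩ := dvd_form hp hd2
  push_cast at he
  have he' : ((2 : ℤ) ^ (k + 1) - p) * Pool.Agent.N357.NP.S p m =
      1 + 2 ^ b * (p : ℤ) ^ v + 2 ^ a * (p : ℤ) ^ u := by linarith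
  rcases lt_trichotomy u v with h1 | h1 | h1
  · exact Pool.Agent.N357.NP.core hp h3 hm ha hb h1.le hv (by intro h; omega) he
  · subst h1
    rcases lt_trichotomy a b with h4 | h4 | h4
    · exact Pool.Agent.N357.NP.core hp h3 hm ha hb le_rfl hv (fun _ => h4) he
    · subst h4; exact absurd rfl hne
    · exact Pool.Agent.N357.NP.core hp h3 hm hb ha le_rfl hu (fun _ => h4) he'
  · exact Pool.Agent.N357.NP.core hp h3 hm hb ha h1.le hu (by intro h; omega) he'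

theorem mersenne {p k : ℕ} (hp : p.Prime) (hpk : p + 1 = 2 ^ (k + 1)) :
    TwoNearPerfect (2 ^ k * p ^ 3) := by
  have h2 : p ≠ 2 := by
    rintro rfl
    rw [pow_succ] at hpk
    omega
  have hp1 := hp.one_lt
  refine ⟨by positivity, p, p ^ 2, ?_, ?_, ?_, ?_⟩
  · exact Dvd.dvd.mul_left (dvd_pow_self p (by norm_num)) _
  · exact Dvd.dvd.mul_left (pow_dvd_pow p (by norm_num)) _
  · intro h
    nlinarith
  · rw [sum_div hp h2]
    have h1 := sum_two k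
    have h4 : ∑ i ∈ range (k + 1), 2 ^ i = p := by omega
    have h5 : 2 * 2 ^ k = p + 1 := by rw [hpk, pow_succ]; ring
    rw [h4]
    simp only [sum_range_succ, range_zero, sum_empty]
    have h6 : 2 * (2 ^ k * p ^ 3) = (p + 1) * p ^ 3 := by rw [← h5]; ring
    rw [h6]
    ring

theorem small {p k m n d₁ d₂ : ℕ} (hp : p.Prime) (h2 : p ≠ 2) (hn : n = 2 ^ k * p ^ m)
    (h1 : d₁ ∣ n) (h3 : d₂ ∣ n) (hne : d₁ ≠ d₂) (hn0 : 0 < n)
    (h : (∑ i ∈ range (k + 1), 2 ^ i) * ∑ i ∈ range (m + 1), p ^ i = 2 * n + d₁ + d₂) :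
    TwoNearPerfect n := by
  refine ⟨hn0, d₁, d₂, h1, h3, hne, ?_⟩
  rw [← h, hn, sum_div hp h2]

theorem np18 : TwoNearPerfect 18 :=
  small (p := 3) (k := 1) (m := 2) (d₁ := 1) (d₂ := 2) Nat.prime_three (by norm_num) (by norm_num)
    (by norm_num) (by norm_num) (by norm_num) (by norm_num) (by decide)

theorem np36 : TwoNearPerfect 36 :=
  small (p := 3) (k := 2) (m := 2) (d₁ := 1) (d₂ := 18) Nat.prime_three (by norm_num) (by norm_num)
    (by norm_num) (by norm_num) (by norm_num) (by norm_num) (by decide)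

theorem np200 : TwoNearPerfect 200 :=
  small (p := 5) (k := 3) (m := 2) (d₁ := 25) (d₂ := 40) Nat.prime_five (by norm_num) (by norm_num)
    (by norm_num) (by norm_num) (by norm_num) (by norm_num) (by decide)

/-- Classification by parameters. -/
theorem params {p k m : ℕ} (hp : p.Prime) (hm : 2 ≤ m) :
    TwoNearPerfect (2 ^ k * p ^ m) ↔
      ((p = 3 ∧ k = 1 ∧ m = 2) ∨ (p = 3 ∧ k = 2 ∧ m = 2) ∨ (p = 5 ∧ k = 3 ∧ m = 2) ∨
        (m = 3 ∧ p + 1 = 2 ^ (k + 1))) := by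
  refine ⟨forward hp hm, ?_⟩
  rintro (⟨rfl, rfl, rfl⟩ | ⟨rfl, rfl, rfl⟩ | ⟨rfl, rfl, rfl⟩ | ⟨rfl, h⟩)
  · exact np18
  · exact np36
  · exact np200
  · exact mersenne hp h

/-- the 2-near perfect numbers of the form `2^k p^m` with `p` prime and `m ≥ 2` -/
def Numbers : Set ℕ :=
  {n | TwoNearPerfect n ∧ ∃ p k m : ℕ, p.Prime ∧ 2 ≤ m ∧ n = 2 ^ k * p ^ m}

theorem numbers_iff (n : ℕ) : n ∈ Numbers ↔
    n = 18 ∨ n = 36 ∨ n = 200 ∨ ∃ k q : ℕ, q.Prime ∧ q = 2 ^ (k + 1) - 1 ∧ n = 2 ^ k * q ^ 3 := by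
  constructor
  · rintro ⟨h, p, k, m, hp, hm, rfl⟩
    rcases (params hp hm).1 h with ⟨rfl, rfl, rfl⟩ | ⟨rfl, rfl, rfl⟩ | ⟨rfl, rfl, rfl⟩ | ⟨rfl, h1⟩
    · left; norm_num
    · right; left; norm_num
    · right; right; left; norm_num
    · right; right; right
      exact ⟨k, p, hp, by omega, rfl⟩
  · rintro (rfl | rfl | rfl | ⟨k, q, hq, h1, rfl⟩)
    · exact ⟨np18, 3, 1, 2, Nat.prime_three, le_rfl, by norm_num⟩
    · exact ⟨np36, 3, 2, 2, Nat.prime_three, le_rfl, by norm_num⟩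
    · exact ⟨np200, 5, 3, 2, Nat.prime_five, le_rfl, by norm_num⟩
    · refine ⟨mersenne hq ?_, q, k, 3, hq, by norm_num, rfl⟩
      have := Nat.one_le_two_pow (n := k + 1)
      omega

/-- (1) For every prime `p` and all `k ≥ 0`, `m ≥ 2`, the number `2^k p^m` is 2-near perfect if and
only if `(p, k, m)` is `(3, 1, 2)`, `(3, 2, 2)` or `(5, 3, 2)`, or `m = 3` and `p = 2^(k+1) - 1`.
(2) The 2-near perfect numbers of the form `2^k p^m` with `p` prime and `m ≥ 2` are `18`, `36`, `200`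
and the numbers `2^k q^3` with `q = 2^(k+1) - 1` prime.
(3) There are only finitely many of them if and only if there are only finitely many Mersenne
primes. -/
theorem result :
    (∀ p k m : ℕ, p.Prime → 2 ≤ m → (TwoNearPerfect (2 ^ k * p ^ m) ↔
      ((p = 3 ∧ k = 1 ∧ m = 2) ∨ (p = 3 ∧ k = 2 ∧ m = 2) ∨ (p = 5 ∧ k = 3 ∧ m = 2) ∨
        (m = 3 ∧ p = 2 ^ (k + 1) - 1)))) ∧
    (∀ n : ℕ, n ∈ Numbers ↔
      n = 18 ∨ n = 36 ∨ n = 200 ∨
        ∃ k q : ℕ, q.Prime ∧ q = 2 ^ (k + 1) - 1 ∧ n = 2 ^ k * q ^ 3) ∧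
    (Numbers.Finite ↔ {q : ℕ | q.Prime ∧ ∃ j : ℕ, q = 2 ^ j - 1}.Finite) := by
  refine ⟨?_, numbers_iff, ?_⟩
  · intro p k m hp hm
    rw [params hp hm]
    have h1 : p + 1 = 2 ^ (k + 1) ↔ p = 2 ^ (k + 1) - 1 := by
      have := Nat.one_le_two_pow (n := k + 1)
      omega
    rw [h1]
  · constructor
    · intro h
      obtain ⟨B, hB⟩ := h.bddAbove
      refine (Set.finite_Iic B).subset ?_
      rintro q ⟨hq, j, hj⟩
      have hj0 : j ≠ 0 := by
        rintro rfl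
        simp at hj
        exact hq.ne_zero hj
      obtain ⟨k, rfl⟩ : ∃ k, j = k + 1 := ⟨j - 1, by omega⟩
      have h1 : 2 ^ k * q ^ 3 ∈ Numbers :=
        (numbers_iff _).2 (Or.inr (Or.inr (Or.inr ⟨k, q, hq, hj, rfl⟩)))
      have h2 := hB h1
      have h3 : q ≤ 2 ^ k * q ^ 3 := by
        calc q = 1 * q ^ 1 := by ring
          _ ≤ 2 ^ k * q ^ 3 :=
            Nat.mul_le_mul (Nat.one_le_two_pow) (Nat.pow_le_pow_right hq.pos (by norm_num))
      exact h3.trans h2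
    · intro h
      have h1 : Numbers ⊆ ({18, 36, 200} : Set ℕ) ∪
          (fun q : ℕ => (q + 1) / 2 * q ^ 3) '' {q : ℕ | q.Prime ∧ ∃ j : ℕ, q = 2 ^ j - 1} := by
        intro n hn
        rcases (numbers_iff n).1 hn with rfl | rfl | rfl | ⟨k, q, hq, h2, rfl⟩
        · left; simp
        · left; simp
        · left; simp
        · right
          refine ⟨q, ⟨hq, k + 1, h2⟩, ?_⟩
          have h3 : (q + 1) / 2 = 2 ^ k := by
            have := Nat.one_le_two_pow (n := k + 1)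
            rw [pow_succ] at this h2
            omega
          simp only [h3]
      exact (((Set.toFinite _).union (h.image _))).subset h1

end Pool.Agent.Results.MP_d695ac_nt.MersenneCubes
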